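import Mathlib
import Pool.Agent.Helper40.EKPV

/-!
# Bilinear sums of Jacobi symbols: boxes
-/

set_option autoImplicit false

open Finset

namespace Pool.Agent.Helper81.TW

/-- Jacobi symbol of natural numbers as a real number. -/
noncomputable def J (y x : ℕ) : ℝ := (jacobiSym (y : ℤ) x : ℝ)

lemma J_abs (y x : ℕ) : |J y x| ≤ 1 := by
  unfold J
  rcases jacobiSym.trichotomy (y : ℤ) x with h | h | h <;> rw [h] <;> norm_num

lemma J_mul_left (a b x : ℕ) : J (a * b) x = J a x * J b x := by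
  unfold J
  rw [Nat.cast_mul, jacobiSym.mul_left]
  push_cast
  rfl

lemma J_mul_right (y a b : ℕ) (ha : a ≠ 0) (hb : b ≠ 0) : J y (a * b) = J y a * J y b := by
  unfold J
  rw [jacobiSym.mul_right' _ ha hb]
  push_cast
  rfl

lemma not_isSquare_mul {a b : ℕ} (ha : Squarefree a) (hb : Squarefree b) (hab : a ≠ b) :
    ¬ IsSquare (a * b) := by
  rintro ⟨k, hk⟩
  apply hab
  have ha0 := ha.ne_zero
  have hb0 := hb.ne_zero
  have hk0 : k ≠ 0 := by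
    rintro rfl
    simp at hk
    tauto
  apply Nat.eq_of_factorization_eq ha0 hb0
  intro p
  have h1 : a.factorization p + b.factorization p = k.factorization p + k.factorization p := by
    have h := congrArg (fun m => m.factorization p) hk
    simpa only [Nat.factorization_mul ha0 hb0, Nat.factorization_mul hk0 hk0,
      Finsupp.add_apply] using h
  have h2 := ha.natFactorization_le_one p
  have h3 := hb.natFactorization_le_one p
  omega

lemma smooth_sum {a b : ℕ} (ha : Odd a) (hb : Odd b) (has : Squarefree a) (hbs : Squarefree b)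
    (hab : a ≠ b) (W : ℕ) :
    |∑ w ∈ Icc 1 W, J w (a * b)| ≤
      4 * Real.sqrt ((a * b : ℕ) : ℝ) * (1 + Real.log ((a * b : ℕ) : ℝ)) := by
  have h := Pool.Agent.Helper40.EKPV.jacobi_sum_le (ha.mul hb) (not_isSquare_mul has hbs hab) 1 W
  have h2 : ∑ w ∈ Icc 1 W, J w (a * b) =
      ∑ i ∈ range W, (jacobiSym ((1 : ℤ) + (i : ℕ)) (a * b) : ℝ) := by
    clear h
    induction W with
    | zero => simp
    | succ n ih =>
      rw [Finset.sum_Icc_succ_top (by omega), ih, Finset.sum_range_succ]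
      congr 1
      unfold J
      push_cast
      rw [add_comm]
  rw [h2]
  exact h

/-- The dual large sieve for Jacobi symbols. -/
lemma dual_sieve {e : ℕ → ℝ} (he : ∀ x, |e x| ≤ 1) (hs : ∀ x, e x ≠ 0 → Odd x ∧ Squarefree x)
    (X W : ℕ) :
    ∑ w ∈ Icc 1 W, (∑ x ∈ Icc 1 X, e x * J w x) ^ 2 ≤
      (X : ℝ) * W + (X : ℝ) ^ 2 * (4 * X * (1 + 2 * Real.log X)) := by
  have h1 : ∀ w, (∑ x ∈ Icc 1 X, e x * J w x) ^ 2 =
      ∑ x ∈ Icc 1 X, ∑ x' ∈ Icc 1 X, e x * e x' * J w (x * x') := by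
    intro w
    rw [sq, Finset.sum_mul_sum]
    refine Finset.sum_congr rfl fun x hx => Finset.sum_congr rfl fun x' hx' => ?_
    rw [mem_Icc] at hx hx'
    rw [J_mul_right w x x' (by omega) (by omega)]
    ring
  have h2 : ∑ w ∈ Icc 1 W, (∑ x ∈ Icc 1 X, e x * J w x) ^ 2 =
      ∑ x ∈ Icc 1 X, ∑ x' ∈ Icc 1 X, e x * e x' * ∑ w ∈ Icc 1 W, J w (x * x') := by
    rw [Finset.sum_congr rfl (fun w _ => h1 w), Finset.sum_comm]
    refine Finset.sum_congr rfl fun x _ => ?_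
    rw [Finset.sum_comm]
    refine Finset.sum_congr rfl fun x' _ => ?_
    rw [Finset.mul_sum]
  have hL : 0 ≤ Real.log X := Real.log_natCast_nonneg X
  have hB : (0 : ℝ) ≤ 4 * X * (1 + 2 * Real.log X) := by positivity
  rw [h2]
  have h3 : ∀ x ∈ Icc 1 X, ∀ x' ∈ Icc 1 X, e x * e x' * ∑ w ∈ Icc 1 W, J w (x * x') ≤
      (if x = x' then (W : ℝ) else 0) + 4 * X * (1 + 2 * Real.log X) := by
    intro x hx x' hx'
    rw [mem_Icc] at hx hx'
    refine (le_abs_self _).trans ?_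
    rw [abs_mul, abs_mul]
    have h4 : |e x| * |e x'| ≤ 1 := by
      calc |e x| * |e x'| ≤ 1 * 1 := mul_le_mul (he x) (he x') (abs_nonneg _) (by norm_num)
        _ = 1 := by norm_num
    by_cases hxx : x = x'
    · rw [if_pos hxx]
      have h5 : |∑ w ∈ Icc 1 W, J w (x * x')| ≤ W := by
        refine (Finset.abs_sum_le_sum_abs _ _).trans ?_
        refine (Finset.sum_le_sum fun w _ => J_abs w (x * x')).trans ?_
        simp
      calc |e x| * |e x'| * |∑ w ∈ Icc 1 W, J w (x * x')| ≤ 1 * W :=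
            mul_le_mul h4 h5 (abs_nonneg _) (by norm_num)
        _ ≤ _ := by linarith
    · rw [if_neg hxx, zero_add]
      by_cases h0 : e x = 0 ∨ e x' = 0
      · rcases h0 with h0 | h0 <;> rw [h0] <;> simpa using hB
      · push Not at h0
        obtain ⟨ho, hq⟩ := hs x h0.1
        obtain ⟨ho', hq'⟩ := hs x' h0.2
        have h5 := smooth_sum ho ho' hq hq' hxx W
        have h6 : (((x * x' : ℕ)) : ℝ) ≤ (X : ℝ) ^ 2 := by
          push_cast
          have : (x : ℝ) ≤ X := by exact_mod_cast hx.2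
          have : (x' : ℝ) ≤ X := by exact_mod_cast hx'.2
          rw [sq]
          gcongr
        have h7 : Real.sqrt ((x * x' : ℕ) : ℝ) ≤ X := by
          rw [← Real.sqrt_sq (Nat.cast_nonneg X)]
          exact Real.sqrt_le_sqrt h6
        have h8 : Real.log ((x * x' : ℕ) : ℝ) ≤ 2 * Real.log X := by
          have h9 : (0 : ℝ) < ((x * x' : ℕ) : ℝ) := by
            have : 0 < x * x' := Nat.mul_pos (by omega) (by omega)
            exact_mod_cast this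
          refine (Real.log_le_log h9 h6).trans ?_
          rw [Real.log_pow]
          norm_num
        have h10 : 0 ≤ Real.log ((x * x' : ℕ) : ℝ) := Real.log_natCast_nonneg _
        calc |e x| * |e x'| * |∑ w ∈ Icc 1 W, J w (x * x')|
            ≤ 1 * (4 * Real.sqrt ((x * x' : ℕ) : ℝ) * (1 + Real.log ((x * x' : ℕ) : ℝ))) :=
              mul_le_mul h4 h5 (abs_nonneg _) (by norm_num)
          _ ≤ 1 * (4 * X * (1 + 2 * Real.log X)) := by gcongr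
          _ = _ := one_mul _
  refine (Finset.sum_le_sum fun x hx => Finset.sum_le_sum fun x' hx' => h3 x hx x' hx').trans ?_
  simp only [Finset.sum_add_distrib, Finset.sum_const, Nat.card_Icc, Nat.add_sub_cancel,
    nsmul_eq_mul, Finset.sum_ite_eq]
  rw [Finset.sum_congr rfl (fun x hx => if_pos hx)]
  simp only [Finset.sum_const, Nat.card_Icc, Nat.add_sub_cancel, nsmul_eq_mul]
  apply le_of_eq
  ring

/-- harmonic sums -/
lemma sum_inv_le (n : ℕ) : ∑ i ∈ Icc 1 n, (1 : ℝ) / i ≤ 1 + Real.log n := by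
  have h := harmonic_le_one_add_log n
  rw [harmonic_eq_sum_Icc] at h
  push_cast at h
  simpa [one_div] using h

lemma card_dvd_le (Y m : ℕ) (hm : 0 < m) : (((Icc 1 Y).filter (fun b => m ∣ b)).card : ℝ) ≤ Y / m := by
  have h1 : ((Icc 1 Y).filter (fun b => m ∣ b)).card ≤ Y / m := by
    have h2 : (Icc 1 Y).filter (fun b => m ∣ b) ⊆ (Icc 1 (Y / m)).image (fun i => m * i) := by
      intro b hb
      rw [mem_filter, mem_Icc] at hb
      obtain ⟨⟨hb1, hb2⟩, c, rfl⟩ := hb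
      rw [mem_image]
      refine ⟨c, ?_, rfl⟩
      rw [mem_Icc]
      refine ⟨?_, ?_⟩
      · rcases Nat.eq_zero_or_pos c with h | h
        · subst h; simp at hb1
        · exact h
      · exact (Nat.le_div_iff_mul_le hm).2 (by rw [mul_comm]; exact hb2)
    refine (Finset.card_le_card h2).trans (Finset.card_image_le.trans ?_)
    simp
  calc (((Icc 1 Y).filter (fun b => m ∣ b)).card : ℝ) ≤ ((Y / m : ℕ) : ℝ) := by exact_mod_cast h1
    _ ≤ Y / m := Nat.cast_div_le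

/-- the number of solutions of `a b = c d` with `a, c` fixed -/
lemma card_sol_le (Y a c : ℕ) (ha : 0 < a) (hc : 0 < c) :
    ∑ b ∈ Icc 1 Y, ∑ d ∈ Icc 1 Y, (if a * b = c * d then (1 : ℝ) else 0) ≤
      (Y : ℝ) * (Nat.gcd a c) / c := by
  have hg : 0 < Nat.gcd a c := Nat.gcd_pos_of_pos_left _ ha
  have h1 : ∀ b ∈ Icc 1 Y, ∑ d ∈ Icc 1 Y, (if a * b = c * d then (1 : ℝ) else 0) ≤
      (if c / Nat.gcd a c ∣ b then (1 : ℝ) else 0) := by
    intro b _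
    by_cases hex : ∃ d ∈ Icc 1 Y, a * b = c * d
    · obtain ⟨d₀, hd₀, hd⟩ := hex
      have h2 : c / Nat.gcd a c ∣ b := by
        have h3 : c ∣ a * b := ⟨d₀, hd⟩
        have h4 : c / Nat.gcd a c ∣ a / Nat.gcd a c * b := by
          have h5 := Nat.div_dvd_div (Nat.gcd_dvd_right a c) h3
          rwa [← Nat.div_mul_right_comm (Nat.gcd_dvd_left a c)] at h5
        exact (Nat.Coprime.dvd_of_dvd_mul_left
          (Nat.coprime_div_gcd_div_gcd hg).symm h4)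
      rw [if_pos h2]
      have h6 : ∑ d ∈ Icc 1 Y, (if a * b = c * d then (1 : ℝ) else 0) ≤
          ∑ d ∈ Icc 1 Y, (if d = d₀ then (1 : ℝ) else 0) := by
        refine Finset.sum_le_sum fun d _ => ?_
        by_cases h : a * b = c * d
        · have h7 : d = d₀ := Nat.eq_of_mul_eq_mul_left hc (h.symm.trans hd)
          rw [if_pos h, if_pos h7]
        · rw [if_neg h]
          split_ifs <;> norm_num
      refine h6.trans ?_
      rw [Finset.sum_ite_eq' (Icc 1 Y) d₀ (fun _ => (1 : ℝ))]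
      split_ifs <;> norm_num
    · push Not at hex
      rw [Finset.sum_eq_zero (fun d hd => if_neg (hex d hd))]
      split_ifs <;> norm_num
  refine (Finset.sum_le_sum h1).trans ?_
  rw [← Finset.sum_filter]
  have hcg : 0 < c / Nat.gcd a c :=
    Nat.div_pos (Nat.le_of_dvd hc (Nat.gcd_dvd_right a c)) hg
  have h8 := card_dvd_le Y (c / Nat.gcd a c) hcg
  simp only [Finset.sum_const, nsmul_eq_mul, mul_one]
  refine h8.trans (le_of_eq ?_)
  rw [Nat.cast_div (Nat.gcd_dvd_right a c) (by exact_mod_cast hg.ne')]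
  have h9 : (c : ℝ) ≠ 0 := by exact_mod_cast hc.ne'
  have h10 : ((Nat.gcd a c : ℕ) : ℝ) ≠ 0 := by exact_mod_cast hg.ne'
  field_simp

lemma sum_inv_dvd_le (Y g : ℕ) (hg : 0 < g) :
    ∑ c ∈ (Icc 1 Y).filter (fun c => g ∣ c), (1 : ℝ) / c ≤ (1 + Real.log Y) / g := by
  have h2 : (Icc 1 Y).filter (fun b => g ∣ b) ⊆ (Icc 1 Y).image (fun i => g * i) := by
    intro b hb
    rw [mem_filter, mem_Icc] at hb
    obtain ⟨⟨hb1, hb2⟩, c, rfl⟩ := hb
    rw [mem_image]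
    refine ⟨c, ?_, rfl⟩
    rw [mem_Icc]
    refine ⟨?_, ?_⟩
    · rcases Nat.eq_zero_or_pos c with h | h
      · subst h; simp at hb1
      · exact h
    · exact (Nat.le_mul_of_pos_left c hg).trans hb2
  refine (Finset.sum_le_sum_of_subset_of_nonneg h2 (fun i _ _ => by positivity)).trans ?_
  rw [Finset.sum_image (fun i _ j _ h => Nat.eq_of_mul_eq_mul_left hg h)]
  have h3 : ∑ i ∈ Icc 1 Y, (1 : ℝ) / ((g * i : ℕ) : ℝ) = (∑ i ∈ Icc 1 Y, (1 : ℝ) / i) / g := by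
    rw [Finset.sum_div]
    refine Finset.sum_congr rfl fun i _ => ?_
    push_cast
    rw [div_div, mul_comm]
  rw [h3]
  gcongr
  exact sum_inv_le Y

lemma gcd_le_sum (Y a c : ℕ) (ha : a ∈ Icc 1 Y) : (Nat.gcd a c : ℝ) ≤
    ∑ g ∈ Icc 1 Y, (if g ∣ a ∧ g ∣ c then (g : ℝ) else 0) := by
  rw [mem_Icc] at ha
  have hg : 0 < Nat.gcd a c := Nat.gcd_pos_of_pos_left _ (by omega)
  have h1 : Nat.gcd a c ∈ Icc 1 Y := by
    rw [mem_Icc]
    exact ⟨hg, (Nat.le_of_dvd (by omega) (Nat.gcd_dvd_left a c)).trans ha.2⟩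
  have h2 := Finset.single_le_sum (f := fun g => if g ∣ a ∧ g ∣ c then (g : ℝ) else 0)
    (fun g _ => by positivity) h1
  simpa [Nat.gcd_dvd_left, Nat.gcd_dvd_right] using h2

/-- multiplicative energy of an initial interval -/
lemma energy_le (Y : ℕ) :
    ∑ a ∈ Icc 1 Y, ∑ c ∈ Icc 1 Y, ∑ b ∈ Icc 1 Y, ∑ d ∈ Icc 1 Y,
      (if a * b = c * d then (1 : ℝ) else 0) ≤ (Y : ℝ) ^ 2 * (1 + Real.log Y) ^ 2 := by
  have hL : 0 ≤ Real.log Y := Real.log_natCast_nonneg Y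
  have h1 : ∑ a ∈ Icc 1 Y, ∑ c ∈ Icc 1 Y, ∑ b ∈ Icc 1 Y, ∑ d ∈ Icc 1 Y,
      (if a * b = c * d then (1 : ℝ) else 0) ≤
      ∑ a ∈ Icc 1 Y, ∑ c ∈ Icc 1 Y, (Y : ℝ) *
        ((∑ g ∈ Icc 1 Y, (if g ∣ a ∧ g ∣ c then (g : ℝ) else 0)) * (1 / c)) := by
    refine Finset.sum_le_sum fun a ha => Finset.sum_le_sum fun c hc => ?_
    have ha' := mem_Icc.1 ha
    have hc' := mem_Icc.1 hc
    refine (card_sol_le Y a c (by omega) (by omega)).trans ?_
    have h2 := gcd_le_sum Y a c ha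
    rw [mul_div_assoc, div_eq_mul_one_div]
    gcongr
  refine h1.trans ?_
  have h3 : ∑ a ∈ Icc 1 Y, ∑ c ∈ Icc 1 Y, (Y : ℝ) *
        ((∑ g ∈ Icc 1 Y, (if g ∣ a ∧ g ∣ c then (g : ℝ) else 0)) * (1 / c)) =
      (Y : ℝ) * ∑ g ∈ Icc 1 Y, (g : ℝ) * ((((Icc 1 Y).filter (fun a => g ∣ a)).card : ℝ) *
        ∑ c ∈ (Icc 1 Y).filter (fun c => g ∣ c), (1 : ℝ) / c) := by
    have h4 : ∀ a ∈ Icc 1 Y, ∀ c ∈ Icc 1 Y, (Y : ℝ) *
        ((∑ g ∈ Icc 1 Y, (if g ∣ a ∧ g ∣ c then (g : ℝ) else 0)) * (1 / c)) =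
        ∑ g ∈ Icc 1 Y, (Y : ℝ) * ((g : ℝ) * ((if g ∣ a then (1 : ℝ) else 0) *
          (if g ∣ c then (1 : ℝ) / c else 0))) := by
      intro a _ c _
      rw [Finset.sum_mul, Finset.mul_sum]
      refine Finset.sum_congr rfl fun g _ => ?_
      by_cases h5 : g ∣ a <;> by_cases h6 : g ∣ c <;> simp [h5, h6]
    rw [Finset.sum_congr rfl fun a ha => Finset.sum_congr rfl fun c hc => h4 a ha c hc]
    rw [Finset.sum_congr rfl fun a _ => Finset.sum_comm]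
    rw [Finset.sum_comm, Finset.mul_sum]
    refine Finset.sum_congr rfl fun g _ => ?_
    simp only [← Finset.mul_sum]
    rw [← Finset.sum_mul, ← Finset.sum_filter, ← Finset.sum_filter]
    simp
  rw [h3]
  have h7 : ∀ g ∈ Icc 1 Y, (g : ℝ) * ((((Icc 1 Y).filter (fun a => g ∣ a)).card : ℝ) *
        ∑ c ∈ (Icc 1 Y).filter (fun c => g ∣ c), (1 : ℝ) / c) ≤
        ((Y : ℝ) * (1 + Real.log Y)) * (1 / g) := by
    intro g hg
    rw [mem_Icc] at hg
    have hg0 : (0 : ℝ) < g := by exact_mod_cast (show 0 < g by omega)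
    have h8 := card_dvd_le Y g (by omega)
    have h9 := sum_inv_dvd_le Y g (by omega)
    have h10 : 0 ≤ ∑ c ∈ (Icc 1 Y).filter (fun c => g ∣ c), (1 : ℝ) / c :=
      Finset.sum_nonneg fun c _ => by positivity
    calc (g : ℝ) * ((((Icc 1 Y).filter (fun a => g ∣ a)).card : ℝ) *
        ∑ c ∈ (Icc 1 Y).filter (fun c => g ∣ c), (1 : ℝ) / c)
        ≤ (g : ℝ) * ((Y / g) * ((1 + Real.log Y) / g)) := by gcongr
      _ = ((Y : ℝ) * (1 + Real.log Y)) * (1 / g) := by field_simp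
  calc (Y : ℝ) * ∑ g ∈ Icc 1 Y, (g : ℝ) * ((((Icc 1 Y).filter (fun a => g ∣ a)).card : ℝ) *
        ∑ c ∈ (Icc 1 Y).filter (fun c => g ∣ c), (1 : ℝ) / c)
      ≤ (Y : ℝ) * ∑ g ∈ Icc 1 Y, ((Y : ℝ) * (1 + Real.log Y)) * (1 / g) := by
        exact mul_le_mul_of_nonneg_left (Finset.sum_le_sum h7) (Nat.cast_nonneg Y)
    _ = (Y : ℝ) * (((Y : ℝ) * (1 + Real.log Y)) * ∑ g ∈ Icc 1 Y, (1 : ℝ) / g) := by
        rw [← Finset.mul_sum]
    _ ≤ (Y : ℝ) * (((Y : ℝ) * (1 + Real.log Y)) * (1 + Real.log Y)) := by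
        gcongr
        exact sum_inv_le Y
    _ = _ := by ring

/-- number of representations as a product -/
noncomputable def rep (Y w : ℕ) : ℝ :=
  ∑ p ∈ (Icc 1 Y) ×ˢ (Icc 1 Y), (if p.1 * p.2 = w then (1 : ℝ) else 0)

lemma sum_rep (Y : ℕ) (F : ℕ → ℝ) :
    ∑ w ∈ Icc 1 (Y * Y), rep Y w * F w = ∑ p ∈ (Icc 1 Y) ×ˢ (Icc 1 Y), F (p.1 * p.2) := by
  unfold rep
  simp only [Finset.sum_mul]
  rw [Finset.sum_comm]
  refine Finset.sum_congr rfl fun p hp => ?_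
  rw [mem_product, mem_Icc, mem_Icc] at hp
  have h1 : p.1 * p.2 ∈ Icc 1 (Y * Y) := by
    rw [mem_Icc]
    exact ⟨Nat.mul_pos (by omega) (by omega), Nat.mul_le_mul hp.1.2 hp.2.2⟩
  simp only [ite_mul, one_mul, zero_mul]
  rw [Finset.sum_ite_eq (Icc 1 (Y * Y)) (p.1 * p.2) F, if_pos h1]

lemma sum_rep_sq (Y : ℕ) :
    ∑ w ∈ Icc 1 (Y * Y), rep Y w ^ 2 ≤ (Y : ℝ) ^ 2 * (1 + Real.log Y) ^ 2 := by
  have h1 : ∑ w ∈ Icc 1 (Y * Y), rep Y w ^ 2 =
      ∑ a ∈ Icc 1 Y, ∑ c ∈ Icc 1 Y, ∑ b ∈ Icc 1 Y, ∑ d ∈ Icc 1 Y,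
      (if a * b = c * d then (1 : ℝ) else 0) := by
    have h2 : ∑ w ∈ Icc 1 (Y * Y), rep Y w ^ 2 = ∑ w ∈ Icc 1 (Y * Y), rep Y w * rep Y w :=
      Finset.sum_congr rfl fun w _ => sq _
    rw [h2, sum_rep Y (rep Y)]
    unfold rep
    rw [Finset.sum_product]
    refine Finset.sum_congr rfl fun a _ => ?_
    rw [Finset.sum_comm' (s := Icc 1 Y) (t := fun _ => Icc 1 Y) (t' := Icc 1 Y)
      (s' := fun _ => Icc 1 Y) (by intro x y; tauto)]
    refine Finset.sum_congr rfl fun b _ => ?_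
    rw [Finset.sum_product]
    refine Finset.sum_congr rfl fun c _ => Finset.sum_congr rfl fun d _ => ?_
    simp only [eq_comm]
  rw [h1]
  exact energy_le Y

lemma second_moment {e g : ℕ → ℝ} (he : ∀ x, |e x| ≤ 1)
    (hs : ∀ x, e x ≠ 0 → Odd x ∧ Squarefree x) (hg : ∀ y, |g y| ≤ 1) (X Y : ℕ) (hX : 1 ≤ X)
    (hXY : X ≤ Y) :
    ∑ x ∈ Icc 1 X, e x * (∑ y ∈ Icc 1 Y, g y * J y x) ^ 2 ≤
      3 * Real.sqrt X * (Y : ℝ) ^ 2 * (1 + Real.log Y) ^ 2 := by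
  set G : ℕ → ℝ := fun w => ∑ x ∈ Icc 1 X, e x * J w x with hG
  have h1 : ∑ x ∈ Icc 1 X, e x * (∑ y ∈ Icc 1 Y, g y * J y x) ^ 2 =
      ∑ p ∈ (Icc 1 Y) ×ˢ (Icc 1 Y), g p.1 * g p.2 * G (p.1 * p.2) := by
    have h2 : ∀ x, e x * (∑ y ∈ Icc 1 Y, g y * J y x) ^ 2 =
        ∑ p ∈ (Icc 1 Y) ×ˢ (Icc 1 Y), g p.1 * g p.2 * (e x * J (p.1 * p.2) x) := by
      intro x
      rw [sq, Finset.sum_mul_sum, Finset.sum_product, Finset.mul_sum]
      refine Finset.sum_congr rfl fun y _ => ?_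
      rw [Finset.mul_sum]
      refine Finset.sum_congr rfl fun y' _ => ?_
      rw [J_mul_left]
      ring
    rw [Finset.sum_congr rfl fun x _ => h2 x, Finset.sum_comm]
    refine Finset.sum_congr rfl fun p _ => ?_
    rw [hG, Finset.mul_sum]
  rw [h1]
  have h3 : ∑ p ∈ (Icc 1 Y) ×ˢ (Icc 1 Y), g p.1 * g p.2 * G (p.1 * p.2) ≤
      ∑ p ∈ (Icc 1 Y) ×ˢ (Icc 1 Y), |G (p.1 * p.2)| := by
    refine Finset.sum_le_sum fun p _ => ?_
    refine (le_abs_self _).trans ?_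
    rw [abs_mul, abs_mul]
    have h4 : |g p.1| * |g p.2| ≤ 1 := by
      calc |g p.1| * |g p.2| ≤ 1 * 1 := mul_le_mul (hg _) (hg _) (abs_nonneg _) (by norm_num)
        _ = 1 := by norm_num
    calc |g p.1| * |g p.2| * |G (p.1 * p.2)| ≤ 1 * |G (p.1 * p.2)| := by gcongr
      _ = _ := one_mul _
  refine h3.trans ?_
  rw [← sum_rep Y (fun w => |G w|)]
  have hL : 0 ≤ Real.log Y := Real.log_natCast_nonneg Y
  have hLX : 0 ≤ Real.log X := Real.log_natCast_nonneg X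
  have hX0 : (0 : ℝ) < X := by exact_mod_cast (show 0 < X by omega)
  have hXY' : (X : ℝ) ≤ Y := by exact_mod_cast hXY
  have hLXY : Real.log X ≤ Real.log Y := Real.log_le_log hX0 hXY'
  have h5 : (∑ w ∈ Icc 1 (Y * Y), rep Y w * |G w|) ^ 2 ≤
      (∑ w ∈ Icc 1 (Y * Y), rep Y w ^ 2) * ∑ w ∈ Icc 1 (Y * Y), |G w| ^ 2 :=
    Finset.sum_mul_sq_le_sq_mul_sq _ _ _
  have h6 : ∑ w ∈ Icc 1 (Y * Y), |G w| ^ 2 ≤
      (X : ℝ) * ((Y * Y : ℕ) : ℝ) + (X : ℝ) ^ 2 * (4 * X * (1 + 2 * Real.log X)) := by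
    have := dual_sieve he hs X (Y * Y)
    simpa only [sq_abs, hG] using this
  have h7 : (X : ℝ) * ((Y * Y : ℕ) : ℝ) + (X : ℝ) ^ 2 * (4 * X * (1 + 2 * Real.log X)) ≤
      9 * X * (Y : ℝ) ^ 2 * (1 + Real.log Y) ^ 2 := by
    push_cast
    have h8 : (X : ℝ) ^ 2 * (4 * X * (1 + 2 * Real.log X)) ≤
        (Y : ℝ) ^ 2 * (4 * X * (1 + 2 * Real.log Y)) := by gcongr
    have h9 : (X : ℝ) * (Y * Y) + (Y : ℝ) ^ 2 * (4 * X * (1 + 2 * Real.log Y)) =
        (X : ℝ) * (Y : ℝ) ^ 2 * (5 + 8 * Real.log Y) := by ring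
    have h10 : (5 + 8 * Real.log Y) ≤ 9 * (1 + Real.log Y) ^ 2 := by nlinarith
    have h11 : (0 : ℝ) ≤ (X : ℝ) * (Y : ℝ) ^ 2 := by positivity
    have h12 := mul_le_mul_of_nonneg_left h10 h11
    linarith
  have h13 : (∑ w ∈ Icc 1 (Y * Y), rep Y w * |G w|) ^ 2 ≤
      (3 * Real.sqrt X * (Y : ℝ) ^ 2 * (1 + Real.log Y) ^ 2) ^ 2 := by
    refine h5.trans ?_
    calc (∑ w ∈ Icc 1 (Y * Y), rep Y w ^ 2) * ∑ w ∈ Icc 1 (Y * Y), |G w| ^ 2
        ≤ ((Y : ℝ) ^ 2 * (1 + Real.log Y) ^ 2) * (9 * X * (Y : ℝ) ^ 2 * (1 + Real.log Y) ^ 2) := by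
          apply mul_le_mul (sum_rep_sq Y) (h6.trans h7)
          · exact Finset.sum_nonneg fun w _ => by positivity
          · positivity
      _ = 9 * (Real.sqrt X) ^ 2 * ((Y : ℝ) ^ 2) ^ 2 * ((1 + Real.log Y) ^ 2) ^ 2 := by
          rw [Real.sq_sqrt hX0.le]; ring
      _ = _ := by ring
  have h14 : 0 ≤ ∑ w ∈ Icc 1 (Y * Y), rep Y w * |G w| := by
    refine Finset.sum_nonneg fun w _ => mul_nonneg ?_ (abs_nonneg _)
    unfold rep
    exact Finset.sum_nonneg fun p _ => by split_ifs <;> norm_num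
  exact (sq_le_sq₀ h14 (by positivity)).1 h13

/-- the box bound for `X ≤ Y` -/
lemma box_le {f g : ℕ → ℝ} (hf : ∀ x, |f x| ≤ 1) (hfs : ∀ x, f x ≠ 0 → Odd x ∧ Squarefree x)
    (hg : ∀ y, |g y| ≤ 1) (V X Y : ℕ) (hV : 1 ≤ V) (hX : V ≤ X) (hXY : X ≤ Y) :
    |∑ x ∈ Icc 1 X, ∑ y ∈ Icc 1 Y, f x * g y * J y x| ≤
      2 * X * Y * (V : ℝ) ^ (-(1 / 4 : ℝ)) * (1 + Real.log Y) := by
  have hL : 0 ≤ Real.log Y := Real.log_natCast_nonneg Y
  have hV0 : (0 : ℝ) < V := by exact_mod_cast (show 0 < V by omega)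
  have hVX : (V : ℝ) ≤ X := by exact_mod_cast hX
  have hX0 : (0 : ℝ) < X := hV0.trans_le hVX
  set e : ℕ → ℝ := fun x => if f x = 0 then 0 else 1 with he
  have he1 : ∀ x, |e x| ≤ 1 := by
    intro x
    simp only [he]
    split_ifs <;> norm_num
  have hes : ∀ x, e x ≠ 0 → Odd x ∧ Squarefree x := by
    intro x hx
    apply hfs
    intro h
    apply hx
    simp [he, h]
  set A : ℕ → ℝ := fun x => ∑ y ∈ Icc 1 Y, g y * J y x with hA
  have h1 : |∑ x ∈ Icc 1 X, ∑ y ∈ Icc 1 Y, f x * g y * J y x| ≤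
      ∑ x ∈ Icc 1 X, 1 * (e x * |A x|) := by
    refine (Finset.abs_sum_le_sum_abs _ _).trans (Finset.sum_le_sum fun x _ => ?_)
    have h2 : ∑ y ∈ Icc 1 Y, f x * g y * J y x = f x * A x := by
      rw [hA, Finset.mul_sum]
      exact Finset.sum_congr rfl fun y _ => by ring
    rw [h2, abs_mul, one_mul]
    by_cases hx : f x = 0
    · simp [he, hx]
    · simp only [he, if_neg hx, one_mul]
      calc |f x| * |A x| ≤ 1 * |A x| := mul_le_mul_of_nonneg_right (hf x) (abs_nonneg _)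
        _ = _ := one_mul _
  have h3 : (∑ x ∈ Icc 1 X, 1 * (e x * |A x|)) ^ 2 ≤
      (∑ x ∈ Icc 1 X, (1 : ℝ) ^ 2) * ∑ x ∈ Icc 1 X, (e x * |A x|) ^ 2 :=
    Finset.sum_mul_sq_le_sq_mul_sq _ _ _
  have h4 : ∑ x ∈ Icc 1 X, (e x * |A x|) ^ 2 = ∑ x ∈ Icc 1 X, e x * (A x) ^ 2 := by
    refine Finset.sum_congr rfl fun x _ => ?_
    rw [mul_pow, sq_abs]
    by_cases hx : f x = 0
    · simp [he, hx]
    · simp [he, hx]
  have h5 : ∑ x ∈ Icc 1 X, (1 : ℝ) ^ 2 = X := by simp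
  rw [h4, h5] at h3
  have h6 := second_moment he1 hes hg X Y (by omega) hXY
  have h7 : (X : ℝ) * ∑ x ∈ Icc 1 X, e x * (A x) ^ 2 ≤
      (X : ℝ) * (3 * Real.sqrt X * (Y : ℝ) ^ 2 * (1 + Real.log Y) ^ 2) :=
    mul_le_mul_of_nonneg_left h6 hX0.le
  set r : ℝ := (V : ℝ) ^ (-(1 / 4 : ℝ)) with hr
  have hr0 : 0 < r := Real.rpow_pos_of_pos hV0 _
  have h8 : Real.sqrt X ≤ X * r ^ 2 := by
    have h9 : r ^ 2 = (Real.sqrt V)⁻¹ := by
      rw [hr, ← Real.rpow_natCast, ← Real.rpow_mul hV0.le, Real.sqrt_eq_rpow,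
        ← Real.rpow_neg hV0.le]
      norm_num
    have h10 : Real.sqrt V ≤ Real.sqrt X := Real.sqrt_le_sqrt hVX
    have h11 : 0 < Real.sqrt V := Real.sqrt_pos.2 hV0
    have h12 : (X : ℝ) = Real.sqrt X * Real.sqrt X := (Real.mul_self_sqrt hX0.le).symm
    rw [h9, ← div_eq_mul_inv, le_div_iff₀ h11]
    calc Real.sqrt X * Real.sqrt V ≤ Real.sqrt X * Real.sqrt X := by gcongr
      _ = X := h12.symm
  have h13 : (∑ x ∈ Icc 1 X, 1 * (e x * |A x|)) ^ 2 ≤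
      (2 * X * Y * r * (1 + Real.log Y)) ^ 2 := by
    refine (h3.trans h7).trans ?_
    have h14 : (X : ℝ) * (3 * Real.sqrt X * (Y : ℝ) ^ 2 * (1 + Real.log Y) ^ 2) ≤
        (X : ℝ) * (3 * (X * r ^ 2) * (Y : ℝ) ^ 2 * (1 + Real.log Y) ^ 2) := by gcongr
    refine h14.trans ?_
    have h15 : 0 ≤ (X : ℝ) ^ 2 * r ^ 2 * (Y : ℝ) ^ 2 * (1 + Real.log Y) ^ 2 := by positivity
    nlinarith
  have h16 : 0 ≤ ∑ x ∈ Icc 1 X, 1 * (e x * |A x|) := by
    refine Finset.sum_nonneg fun x _ => ?_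
    simp only [he]
    split_ifs <;> simp
  exact h1.trans ((sq_le_sq₀ h16 (by positivity)).1 h13)

lemma sign_split (a b : ℕ) : ((-1 : ℝ)) ^ (a * b) =
    (1 + (-1) ^ a + (-1) ^ b - (-1) ^ a * (-1) ^ b) / 2 := by
  rcases Nat.even_or_odd a with ha | ha <;> rcases Nat.even_or_odd b with hb | hb
  · rw [(ha.mul_right b).neg_one_pow, ha.neg_one_pow, hb.neg_one_pow]; norm_num
  · rw [(ha.mul_right b).neg_one_pow, ha.neg_one_pow, hb.neg_one_pow]; norm_num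
  · rw [(hb.mul_left a).neg_one_pow, ha.neg_one_pow, hb.neg_one_pow]; norm_num
  · rw [(ha.mul hb).neg_one_pow, ha.neg_one_pow, hb.neg_one_pow]; norm_num

lemma J_recip {x y : ℕ} (hx : Odd x) (hy : Odd y) :
    J y x = (-1) ^ (y / 2 * (x / 2)) * J x y := by
  unfold J
  rw [jacobiSym.quadratic_reciprocity hy hx]
  push_cast
  rfl

/-- **The box bound.** -/
theorem box {f g : ℕ → ℝ} (hf : ∀ x, |f x| ≤ 1) (hg : ∀ y, |g y| ≤ 1)
    (hfs : ∀ x, f x ≠ 0 → Odd x ∧ Squarefree x) (hgs : ∀ y, g y ≠ 0 → Odd y ∧ Squarefree y)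
    (V X Y : ℕ) (hV : 1 ≤ V) (hX : V ≤ X) (hY : V ≤ Y) :
    |∑ x ∈ Icc 1 X, ∑ y ∈ Icc 1 Y, f x * g y * (jacobiSym (y : ℤ) x : ℝ)| ≤
      4 * X * Y * (V : ℝ) ^ (-(1 / 4 : ℝ)) * (1 + Real.log X + Real.log Y) := by
  have hV0 : (0 : ℝ) < V := by exact_mod_cast (show 0 < V by omega)
  have hLX : 0 ≤ Real.log X := Real.log_natCast_nonneg X
  have hLY : 0 ≤ Real.log Y := Real.log_natCast_nonneg Y
  have hr0 : 0 < (V : ℝ) ^ (-(1 / 4 : ℝ)) := Real.rpow_pos_of_pos hV0 _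
  change |∑ x ∈ Icc 1 X, ∑ y ∈ Icc 1 Y, f x * g y * J y x| ≤ _
  rcases le_total X Y with hXY | hXY
  · refine (box_le hf hfs hg V X Y hV hX hXY).trans ?_
    have h1 : (1 + Real.log Y) ≤ 2 * (1 + Real.log X + Real.log Y) := by linarith
    have h2 : 0 ≤ 2 * (X : ℝ) * Y * (V : ℝ) ^ (-(1 / 4 : ℝ)) := by positivity
    have h3 := mul_le_mul_of_nonneg_left h1 h2
    linarith
  · set s : ℕ → ℝ := fun x => (-1) ^ (x / 2) with hs
    have hs1 : ∀ x, |s x| = 1 := by intro x; simp [hs]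
    have key : ∀ (f' g' : ℕ → ℝ), (∀ x, |f' x| ≤ 1) → (∀ y, |g' y| ≤ 1) →
        (∀ y, g' y ≠ 0 → Odd y ∧ Squarefree y) →
        |∑ x ∈ Icc 1 X, ∑ y ∈ Icc 1 Y, f' x * g' y * J x y| ≤
          2 * X * Y * (V : ℝ) ^ (-(1 / 4 : ℝ)) * (1 + Real.log X) := by
      intro f' g' hf' hg' hgs'
      have h1 := box_le hg' hgs' hf' V Y X hV hY hXY
      have h2 : ∑ x ∈ Icc 1 X, ∑ y ∈ Icc 1 Y, f' x * g' y * J x y =
          ∑ x ∈ Icc 1 Y, ∑ y ∈ Icc 1 X, g' x * f' y * J y x := by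
        rw [Finset.sum_comm]
        exact Finset.sum_congr rfl fun y _ => Finset.sum_congr rfl fun x _ => by ring
      rw [h2]
      refine h1.trans (le_of_eq ?_)
      ring
    have hfs1 : ∀ x, |f x * s x| ≤ 1 := by
      intro x
      rw [abs_mul, hs1, mul_one]
      exact hf x
    have hgs1 : ∀ x, |g x * s x| ≤ 1 := by
      intro x
      rw [abs_mul, hs1, mul_one]
      exact hg x
    have hgs2 : ∀ y, g y * s y ≠ 0 → Odd y ∧ Squarefree y := fun y hy =>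
      hgs y (left_ne_zero_of_mul hy)
    have k1 := key f g hf hg hgs
    have k2 := key (fun x => f x * s x) g hfs1 hg hgs
    have k3 := key f (fun y => g y * s y) hf hgs1 hgs2
    have k4 := key (fun x => f x * s x) (fun y => g y * s y) hfs1 hgs1 hgs2
    have h5 : ∑ x ∈ Icc 1 X, ∑ y ∈ Icc 1 Y, f x * g y * J y x =
        (1 / 2 : ℝ) * ((∑ x ∈ Icc 1 X, ∑ y ∈ Icc 1 Y, f x * g y * J x y) +
          (∑ x ∈ Icc 1 X, ∑ y ∈ Icc 1 Y, (f x * s x) * g y * J x y) +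
          (∑ x ∈ Icc 1 X, ∑ y ∈ Icc 1 Y, f x * (g y * s y) * J x y) -
          (∑ x ∈ Icc 1 X, ∑ y ∈ Icc 1 Y, (f x * s x) * (g y * s y) * J x y)) := by
      rw [← Finset.sum_add_distrib, ← Finset.sum_add_distrib, ← Finset.sum_sub_distrib,
        Finset.mul_sum]
      refine Finset.sum_congr rfl fun x _ => ?_
      rw [← Finset.sum_add_distrib, ← Finset.sum_add_distrib, ← Finset.sum_sub_distrib,
        Finset.mul_sum]
      refine Finset.sum_congr rfl fun y _ => ?_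
      by_cases h0 : f x = 0
      · simp [h0]
      by_cases h0' : g y = 0
      · simp [h0']
      rw [J_recip (hfs x h0).1 (hgs y h0').1, sign_split]
      simp only [hs]
      ring
    rw [h5, abs_mul]
    rw [abs_le] at k1 k2 k3 k4
    have h6 : |(∑ x ∈ Icc 1 X, ∑ y ∈ Icc 1 Y, f x * g y * J x y) +
          (∑ x ∈ Icc 1 X, ∑ y ∈ Icc 1 Y, (f x * s x) * g y * J x y) +
          (∑ x ∈ Icc 1 X, ∑ y ∈ Icc 1 Y, f x * (g y * s y) * J x y) -
          (∑ x ∈ Icc 1 X, ∑ y ∈ Icc 1 Y, (f x * s x) * (g y * s y) * J x y)| ≤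
          4 * (2 * X * Y * (V : ℝ) ^ (-(1 / 4 : ℝ)) * (1 + Real.log X)) := by
      rw [abs_le]
      constructor <;> linarith
    have h7 : |(1 / 2 : ℝ)| = 1 / 2 := by norm_num
    rw [h7]
    have h8 : 0 ≤ (X : ℝ) * Y * (V : ℝ) ^ (-(1 / 4 : ℝ)) * Real.log Y := by positivity
    nlinarith

end Pool.Agent.Helper81.TW
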