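import Pool.Agent.Helper11.TW.Defs2

/-!
# Counting squarefree numbers from local data, general form

The number of squarefree `d` with `|d| ≤ N` whose good primes carry types `e r : J → Bool` with
prescribed Jacobi symbols, from the abstract bound `HBS2`.  (Same argument as
`Helper11.TW.count_bound`, without elliptic curves.)
-/

set_option autoImplicit false

namespace Pool.Agent.Helper81.TW

open Pool.Agent.Helper11.TW

theorem prime_of_good {d : ℤ} {B r : ℕ} (h : r ∈ good d B) : r.Prime :=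
  Nat.prime_of_mem_primeFactors (Finset.mem_filter.1 h).1

theorem dvd_of_good {d : ℤ} {B r : ℕ} (h : r ∈ good d B) : (r : ℤ) ∣ d :=
  Int.natCast_dvd.2 (Nat.dvd_of_mem_primeFactors (Finset.mem_filter.1 h).1)

theorem mem_of_dvd_part {α : Type} [DecidableEq α] {d : ℤ} {B : ℕ} {e : ℕ → α} {v : α}
    {r : ℕ} (hr : r.Prime) (h : r ∣ part d B e v) : r ∈ good d B ∧ e r = v := by
  unfold part at h
  obtain ⟨r', hr', hdvd⟩ := (Nat.Prime.prime hr).exists_mem_finset_dvd h
  rw [Finset.mem_filter] at hr'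
  have h2 : r = r' := (Nat.prime_dvd_prime_iff_eq hr (prime_of_good hr'.1)).1 hdvd
  rw [h2]
  exact hr'

/-- the types of the good primes of `d` -/
def Local {J : Type} (S : (J → Bool) → ℕ → Prop) (kap : (J → Bool) → J → ℕ → ℤ)
    (d : ℤ) (B : ℕ) (e : ℕ → (J → Bool)) : Prop :=
  ∀ r ∈ good d B, ¬ S (e r) r ∧
    ∀ j, jacobiSym (∏ x ∈ (good d B).filter (fun x => e x j ≠ e r j), (x : ℤ)) r
      = kap (e r) j r ∧ kap (e r) j r ≠ 0

theorem per_d {J : Type} [Fintype J] [DecidableEq J] {S : (J → Bool) → ℕ → Prop}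
    {kap : (J → Bool) → J → ℕ → ℤ} {d : ℤ} {B : ℕ} {en : ℕ → (J → Bool)}
    (h : Local S kap d B en) :
    ∃ D : (J → Bool) → ℕ, ∏ e, D e = ∏ r ∈ good d B, r ∧
      ∀ e, ∀ r : ℕ, r.Prime → r ∣ D e → ¬ S e r ∧
        ∀ j, jacobiSym (∏ e' ∈ Finset.univ.filter (fun e' : J → Bool => e' j ≠ e j),
          (D e' : ℤ)) r = kap e j r ∧ kap e j r ≠ 0 := by
  classical
  refine ⟨fun v => part d B en v, ?_, ?_⟩
  · exact Finset.prod_fiberwise (good d B) en (fun r => r)
  · intro v r hr hrD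
    obtain ⟨hg, hv⟩ := mem_of_dvd_part hr hrD
    subst hv
    refine ⟨(h r hg).1, fun j => ?_⟩
    have h1 : ∏ e' ∈ Finset.univ.filter
        (fun e' : J → Bool => e' j ≠ en r j), part d B en e' =
        ∏ x ∈ (good d B).filter (fun x => en x j ≠ en r j), x := by
      rw [← Finset.prod_fiberwise_of_maps_to
        (s := (good d B).filter (fun x => en x j ≠ en r j))
        (t := Finset.univ.filter
          (fun e' : J → Bool => e' j ≠ en r j)) (g := en)
        (fun x hx => by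
          rw [Finset.mem_filter] at hx ⊢
          exact ⟨Finset.mem_univ _, hx.2⟩)]
      refine Finset.prod_congr rfl ?_
      intro e' he'
      rw [Finset.mem_filter] at he'
      unfold part
      refine Finset.prod_congr ?_ (fun _ _ => rfl)
      ext x
      simp only [Finset.mem_filter]
      constructor
      · rintro ⟨h2, h3⟩
        exact ⟨⟨h2, by rw [h3]; exact he'.2⟩, h3⟩
      · rintro ⟨⟨h2, -⟩, h3⟩
        exact ⟨h2, h3⟩
    have hcast : ∏ e' ∈ Finset.univ.filter
        (fun e' : J → Bool => e' j ≠ en r j), (part d B en e' : ℤ) =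
        ∏ x ∈ (good d B).filter (fun x => en x j ≠ en r j), (x : ℤ) := by
      rw [← Nat.cast_prod, h1]
      push_cast
      rfl
    show jacobiSym (∏ e' ∈ Finset.univ.filter
      (fun e' : J → Bool => e' j ≠ en r j), (part d B en e' : ℤ)) r = _ ∧ _
    rw [hcast]
    exact (h r hg).2 j

/-- **General core.** -/
theorem gen_core (hHB : HBS2) (J : Type) [Fintype J] [DecidableEq J] (B : ℕ) (hB0 : B ≠ 0)
    (h2 : 2 ∣ B) {υ : Type} (UU : Finset υ) (kap : υ → (J → Bool) → J → ℕ → ℤ)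
    (S : (J → Bool) → ℕ → Prop) (κ₀ : ℝ) (hS : ∀ e, DensePrimes κ₀ (S e))
    (δ : ℝ) (hδ : 0 < δ) (hδκ : δ < κ₀) :
    ∃ C : ℝ, ∀ N : ℕ, 2 ≤ N → ∀ A : Finset ℤ,
      (∀ d ∈ A, Squarefree d ∧ |d| ≤ N ∧ ∃ u ∈ UU, ∃ e : ℕ → (J → Bool),
        Local S (kap u) d B e) →
      (A.card : ℝ) ≤ C * N * (Real.log N) ^ (-δ) := by
  classical
  obtain ⟨C, hC⟩ := hHB J S κ₀ hS δ hδ hδκ
  refine ⟨2 * 2 ^ B.primeFactors.card * UU.card * C, ?_⟩
  intro N hN A hA
  rcases A.eq_empty_or_nonempty with hAe | ⟨dA, hdA⟩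
  · -- the bound is nonnegative: apply `hC` to the empty set
    rcases UU.eq_empty_or_nonempty with hU | ⟨u0, hu0⟩
    · subst hAe
      subst hU
      simp
    · have h0 := hC (kap u0) N hN ∅ (by simp)
      subst hAe
      simp only [Finset.card_empty, Nat.cast_zero] at h0 ⊢
      have h1 : (2 * 2 ^ B.primeFactors.card * UU.card * C : ℝ) * N * (Real.log N) ^ (-δ) =
          (2 * 2 ^ B.primeFactors.card * UU.card) * (C * N * (Real.log N) ^ (-δ)) := by ring
      rw [h1]
      positivity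
  -- the data of `d`
  obtain ⟨uA, huA, -⟩ := (hA dA hdA).2.2
  have hdata : ∀ d : ℤ, ∃ u : υ, d ∈ A → u ∈ UU ∧
      ∃ D : (J → Bool) → ℕ, ∏ e, D e = ∏ r ∈ good d B, r ∧
      ∀ e, ∀ r : ℕ, r.Prime → r ∣ D e → ¬ S e r ∧
        ∀ j, jacobiSym (∏ e' ∈ Finset.univ.filter (fun e' : J → Bool => e' j ≠ e j),
          (D e' : ℤ)) r = kap u e j r ∧ kap u e j r ≠ 0 := by
    intro d
    by_cases hd : d ∈ A
    · obtain ⟨-, -, u, hu, e, he⟩ := hA d hd
      exact ⟨u, fun _ => ⟨hu, per_d he⟩⟩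
    · exact ⟨uA, fun h => absurd h hd⟩
  choose ud hud using hdata
  let m : ℤ → ℕ := fun d => ∏ r ∈ good d B, r
  let T : ℤ → Finset ℕ := fun d => d.natAbs.primeFactors.filter (fun r => r ∣ B)
  have hTm : ∀ d ∈ A, (∏ r ∈ T d, r) * m d = d.natAbs := by
    intro d hd
    have h3 : Squarefree d.natAbs := Int.squarefree_natAbs.2 (hA d hd).1
    rw [← Nat.prod_primeFactors_of_squarefree h3]
    show (∏ r ∈ d.natAbs.primeFactors.filter (fun r => r ∣ B), r) *
      ∏ r ∈ d.natAbs.primeFactors.filter (fun r => ¬ r ∣ B), r = _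
    rw [Finset.prod_filter_mul_prod_filter_not]
  have hmdvd : ∀ d ∈ A, m d ∣ d.natAbs := fun d hd => ⟨_, by rw [mul_comm]; exact (hTm d hd).symm⟩
  have hd0 : ∀ d ∈ A, d.natAbs ≠ 0 := fun d hd => by
    rw [Int.natAbs_ne_zero]
    exact (hA d hd).1.ne_zero
  -- the sets of the `m d` for fixed `u`
  let Au : υ → Finset ℕ := fun u => (A.filter (fun d => ud d = u)).image m
  have hAu : ∀ u, ((Au u).card : ℝ) ≤ C * N * (Real.log N) ^ (-δ) := by
    intro u
    refine hC (kap u) N hN (Au u) ?_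
    intro mm hmm
    obtain ⟨d, hd, rfl⟩ := Finset.mem_image.1 hmm
    rw [Finset.mem_filter] at hd
    obtain ⟨hd, rfl⟩ := hd
    refine ⟨?_, ?_, ?_, (hud d hd).2⟩
    · refine (Nat.le_of_dvd (Nat.pos_of_ne_zero (hd0 d hd)) (hmdvd d hd)).trans ?_
      have h3 := (hA d hd).2.1
      rw [Int.abs_eq_natAbs] at h3
      exact_mod_cast h3
    · show Odd (∏ r ∈ good d B, r)
      refine Finset.prod_induction _ Odd (fun _ _ h3 h4 => h3.mul h4) odd_one ?_
      intro r hr
      rcases (prime_of_good hr).eq_two_or_odd' with h3 | h3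
      · subst h3
        exact absurd h2 (Finset.mem_filter.1 hr).2
      · exact h3
    · exact Squarefree.squarefree_of_dvd (hmdvd d hd) (Int.squarefree_natAbs.2 (hA d hd).1)
  -- the injection
  let X : Finset ((Bool × Finset ℕ) × (Σ _ : υ, ℕ)) :=
    ((Finset.univ : Finset Bool) ×ˢ B.primeFactors.powerset) ×ˢ (UU.sigma fun u => Au u)
  have hcard : A.card ≤ X.card := by
    refine Finset.card_le_card_of_injOn
      (fun d => ((decide (0 ≤ d), T d), ⟨ud d, m d⟩)) ?_ ?_
    · intro d hd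
      have hd' : d ∈ A := hd
      refine Finset.mem_coe.2 (Finset.mem_product.2 ⟨Finset.mem_product.2 ⟨Finset.mem_univ _, ?_⟩,
        Finset.mem_sigma.2 ⟨(hud d hd').1, ?_⟩⟩)
      · show T d ∈ B.primeFactors.powerset
        rw [Finset.mem_powerset]
        intro r hr
        rw [Finset.mem_filter] at hr
        exact Nat.mem_primeFactors.2 ⟨Nat.prime_of_mem_primeFactors hr.1, hr.2, hB0⟩
      · exact Finset.mem_image_of_mem _ (Finset.mem_filter.2 ⟨hd', rfl⟩)
    · intro d hd d' hd' h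
      have hd1 : d ∈ A := hd
      have hd1' : d' ∈ A := hd'
      simp only [Prod.mk.injEq, Sigma.mk.injEq, heq_eq_eq] at h
      obtain ⟨⟨h3, h4⟩, -, h5⟩ := h
      have h6 : d.natAbs = d'.natAbs := by
        rw [← hTm d hd1, ← hTm d' hd1', h4, h5]
      rcases Int.natAbs_eq_natAbs_iff.1 h6 with h7 | h7
      · exact h7
      · have h8 : (0 ≤ d) ↔ (0 ≤ d') := decide_eq_decide.1 h3
        have h9 := hd0 d hd1
        omega
  have hXcard : (X.card : ℝ) = 2 * 2 ^ B.primeFactors.card * ∑ u ∈ UU, ((Au u).card : ℝ) := by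
    have h3 : X.card = (2 * 2 ^ B.primeFactors.card) * ∑ u ∈ UU, (Au u).card := by
      show (((Finset.univ : Finset Bool) ×ˢ B.primeFactors.powerset) ×ˢ
        (UU.sigma fun u => Au u)).card = _
      rw [Finset.card_product, Finset.card_product, Finset.card_sigma, Finset.card_powerset]
      rfl
    rw [h3]
    push_cast
    ring
  calc (A.card : ℝ) ≤ (X.card : ℝ) := by exact_mod_cast hcard
    _ = 2 * 2 ^ B.primeFactors.card * ∑ u ∈ UU, ((Au u).card : ℝ) := hXcard
    _ ≤ 2 * 2 ^ B.primeFactors.card * ∑ _u ∈ UU, (C * N * (Real.log N) ^ (-δ)) := by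
        refine mul_le_mul_of_nonneg_left (Finset.sum_le_sum fun u _ => hAu u) (by positivity)
    _ = 2 * 2 ^ B.primeFactors.card * UU.card * C * N * (Real.log N) ^ (-δ) := by
        rw [Finset.sum_const, nsmul_eq_mul]
        ring

end Pool.Agent.Helper81.TW
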